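import Pool.Agent.Lib.MP_acafa7_al.MS.H50.FanAux

/-! Module InA: a loop among the inner spokes. -/

namespace MSG.H50

open Classical

theorem ina (hFM : FlipMStatement) (hFD : FlipDegStatement) (hA : AngStatement) :
    InAStatement := by
  intro V X a C aut hC 𝒜 o k s hM hF j hj0 hjk hloop
  obtain ⟨j', rfl⟩ : ∃ j', j = j' + 1 := ⟨j - 1, by omega⟩
  have hO := off3 𝒜
  have hL := 𝒜.ok.lenok
  obtain ⟨e1, e2, hι⟩ := spoke hF (j := j') (by omega)
  have hs := hF.tri (j' + 1) hjk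
  set d := s (j' + 1) with hd
  have hφs : 𝒜.M.φ d ∉ annB 𝒜.P 𝒜.Q := off3_compl hO hs
  have hφφs : 𝒜.M.φ (𝒜.M.φ d) ∉ annB 𝒜.P 𝒜.Q := off3_compl hO hφs
  have so : 𝒜.M.SameV o d := sameV_spoke hF hjk.le
  have sφ : 𝒜.M.SameV o (𝒜.M.φ d) :=
    𝒜.M.sameV_trans hloop (𝒜.M.sameV_symm (𝒜.M.sameV_step d))
  have n1 : 𝒜.M.ι d ≠ 𝒜.M.φ d := ne_phi hA hO hL 𝒜.ok.npc hs
  have nj : s j' ≠ d := by
    intro h
    have := hF.inj j' (j' + 1) (by omega) (by omega) h
    omega
  have n2 : 𝒜.M.ι d ≠ 𝒜.M.φ (𝒜.M.φ d) := by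
    intro h
    rw [h, (hO.2 d hs).1] at e2
    exact nj e2.symm
  have nφ : 𝒜.M.φ d ≠ d := (hO.2 d hs).2
  have nι : 𝒜.M.ι d ≠ d := 𝒜.M.ne d
  have nιj : 𝒜.M.ι d ≠ s j' := by
    intro h
    have := (hO.2 _ hι).2
    rw [e2] at this
    exact this h.symm
  have sj : 𝒜.M.SameV o (s j') := sameV_spoke hF (by omega)
  have tj := hF.tri j' (by omega)
  have hcu := hM.2.2
  -- the angles at the vertex
  have a1 : 𝒜.M.th 𝒜.ℓ d + 𝒜.M.th 𝒜.ℓ (𝒜.M.φ (𝒜.M.ι d)) < Real.pi := by
    have h := sum_le hA hM hF {d, s j', 𝒜.M.ι d} (by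
      intro x hx
      simp only [Finset.mem_insert, Finset.mem_singleton] at hx
      rcases hx with rfl | rfl | rfl
      · exact ⟨so, hs⟩
      · exact ⟨sj, tj⟩
      · exact ⟨hloop, hι⟩)
    rw [Finset.sum_insert (by
      simp only [Finset.mem_insert, Finset.mem_singleton]
      rintro (h | h)
      · exact nj h.symm
      · exact nι h.symm), Finset.sum_insert (by
      simp only [Finset.mem_singleton]
      exact fun h => nιj h.symm), Finset.sum_singleton] at h
    have := (th_facts hA hO hL hι).1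
    rw [e2]
    linarith
  have a2 : 𝒜.M.th 𝒜.ℓ (𝒜.M.ι d) + 𝒜.M.th 𝒜.ℓ (𝒜.M.φ d) < Real.pi := by
    have h := sum_le hA hM hF {d, 𝒜.M.ι d, 𝒜.M.φ d} (by
      intro x hx
      simp only [Finset.mem_insert, Finset.mem_singleton] at hx
      rcases hx with rfl | rfl | rfl
      · exact ⟨so, hs⟩
      · exact ⟨hloop, hι⟩
      · exact ⟨sφ, hφs⟩)
    rw [Finset.sum_insert (by
      simp only [Finset.mem_insert, Finset.mem_singleton]
      rintro (h | h)
      · exact nι h.symm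
      · exact nφ h.symm), Finset.sum_insert (by
      simp only [Finset.mem_singleton]
      exact n1), Finset.sum_singleton] at h
    have := (th_facts hA hO hL hs).1
    linarith
  obtain ⟨M', ℓ', e', hok, hfl, hM', hdeg, m1, m2, m3, m4, -⟩ :=
    flip_core hFM hFD aut hC 𝒜 o hM d hs hι n1 n2 a1 a2
  refine ⟨⟨𝒜.D, 𝒜.fin, M', 𝒜.P, 𝒜.Q, 𝒜.ε, ℓ', e', hok⟩, o, hM', ?_, rfl, rfl, m1, m2, m3, m4⟩
  show M'.deg o < 𝒜.M.deg o
  -- the opposite vertex of `φ φ d` is not the vertex of `o`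
  have hopp : ¬ 𝒜.M.SameV o (𝒜.M.φ (𝒜.M.φ d)) := by
    intro h4
    have h := sum_le hA hM hF {𝒜.M.ι d, d, 𝒜.M.φ d, 𝒜.M.φ (𝒜.M.φ d)} (by
      intro x hx
      simp only [Finset.mem_insert, Finset.mem_singleton] at hx
      rcases hx with rfl | rfl | rfl | rfl
      · exact ⟨hloop, hι⟩
      · exact ⟨so, hs⟩
      · exact ⟨sφ, hφs⟩
      · exact ⟨h4, hφφs⟩)
    rw [Finset.sum_insert (by
      simp only [Finset.mem_insert, Finset.mem_singleton]
      rintro (h | h | h)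
      · exact nι h
      · exact n1 h
      · exact n2 h), Finset.sum_insert (by
      simp only [Finset.mem_insert, Finset.mem_singleton]
      rintro (h | h)
      · exact nφ h.symm
      · have h5 := (hO.2 d hs).1
        rw [← h] at h5
        exact nφ h5), Finset.sum_insert (by
      simp only [Finset.mem_singleton]
      intro h
      exact nφ (𝒜.M.φ.injective h.symm)), Finset.sum_singleton] at h
    have h6 := (th_facts hA hO hL hs).2.2
    have h7 := (th_facts hA hO hL hι).1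
    linarith
  rw [if_pos so, if_pos hloop, if_neg hopp] at hdeg
  split_ifs at hdeg <;> omega

end MSG.H50
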