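import Pool.Agent.Lib.MP_acafa7_al.MS.H50.FanAux

/-! Module InB: a flip at an inner spoke with small end sum. -/

namespace MSG.H50

open Classical

/-- two corners at the vertex have a sum less than `π` -/
theorem two_lt (hA : AngStatement) {V : Type} {X : Cx V} {a : Equiv.Perm V} {C : ℝ} {𝒜 : MA X a C}
    {o : 𝒜.D} {k : ℕ} {s : ℕ → 𝒜.D} (hM : 𝒜.Marked o) (hF : 𝒜.Fan o k s)
    (h3 : 0 < 𝒜.M.curv 𝒜.ℓ (annB 𝒜.P 𝒜.Q) o ∨ 3 ≤ k) {i j : ℕ} (hi : i < k) (hj : j < k)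
    (hij : i ≠ j) : 𝒜.M.th 𝒜.ℓ (s i) + 𝒜.M.th 𝒜.ℓ (s j) < Real.pi := by
  have hO := off3 𝒜
  have hL := 𝒜.ok.lenok
  have hne : s i ≠ s j := fun h => hij (hF.inj i j hi.le hj.le h)
  rcases h3 with h3 | h3
  · have h := sum_le hA hM hF {s i, s j} (by
      intro x hx
      simp only [Finset.mem_insert, Finset.mem_singleton] at hx
      rcases hx with rfl | rfl
      · exact ⟨sameV_spoke hF hi.le, hF.tri i hi⟩
      · exact ⟨sameV_spoke hF hj.le, hF.tri j hj⟩)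
    rw [Finset.sum_pair hne] at h
    linarith
  · obtain ⟨m, hm, hmi, hmj⟩ : ∃ m, m < k ∧ m ≠ i ∧ m ≠ j := by
      by_cases h0 : 0 ≠ i ∧ 0 ≠ j
      · exact ⟨0, by omega, h0.1, h0.2⟩
      · by_cases h1 : 1 ≠ i ∧ 1 ≠ j
        · exact ⟨1, by omega, h1.1, h1.2⟩
        · exact ⟨2, by omega, by omega, by omega⟩
    have h := sum_le hA hM hF {s m, s i, s j} (by
      intro x hx
      simp only [Finset.mem_insert, Finset.mem_singleton] at hx
      rcases hx with rfl | rfl | rfl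
      · exact ⟨sameV_spoke hF hm.le, hF.tri m hm⟩
      · exact ⟨sameV_spoke hF hi.le, hF.tri i hi⟩
      · exact ⟨sameV_spoke hF hj.le, hF.tri j hj⟩)
    rw [Finset.sum_insert (by
      simp only [Finset.mem_insert, Finset.mem_singleton]
      rintro (h | h)
      · exact hmi (hF.inj m i hm.le hi.le h)
      · exact hmj (hF.inj m j hm.le hj.le h)), Finset.sum_pair hne] at h
    have h4 := (th_facts hA hO hL (hF.tri m hm)).1
    have h5 := hM.2.2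
    linarith

theorem inb (hFM : FlipMStatement) (hFD : FlipDegStatement) (hA : AngStatement) :
    InBStatement := by
  intro V X a C aut hC 𝒜 o k s hM hF h3 j hjk l0 l1 l2 hang
  have hO := off3 𝒜
  have hL := 𝒜.ok.lenok
  obtain ⟨e1, e2, hι⟩ := spoke hF (j := j) (by omega)
  obtain ⟨e3, e4, hι2⟩ := spoke hF (j := j + 1) (by omega)
  have hs := hF.tri (j + 1) (by omega)
  have hlt := two_lt hA hM hF h3 (i := j + 1) (j := j) (by omega) (by omega) (by omega)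
  have nj : s j ≠ s (j + 1) := by
    intro h
    have := hF.inj j (j + 1) (by omega) (by omega) h
    omega
  have so : 𝒜.M.SameV o (s (j + 1)) := sameV_spoke hF (by omega)
  have hj := hF.tri j (by omega)
  generalize hd : s (j + 1) = d at *
  have n1 : 𝒜.M.ι d ≠ 𝒜.M.φ d := ne_phi hA hO hL 𝒜.ok.npc hs
  have n2 : 𝒜.M.ι d ≠ 𝒜.M.φ (𝒜.M.φ d) := by
    intro h
    rw [h, (hO.2 d hs).1] at e2
    exact nj e2.symm
  have a1 : 𝒜.M.th 𝒜.ℓ d + 𝒜.M.th 𝒜.ℓ (𝒜.M.φ (𝒜.M.ι d)) < Real.pi := by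
    rw [e2]
    exact hlt
  obtain ⟨M', ℓ', e', hok, hfl, hM', hdeg, m1, m2, m3, m4, -⟩ :=
    flip_core hFM hFD aut hC 𝒜 o hM d hs hι n1 n2 a1 hang
  refine ⟨⟨𝒜.D, 𝒜.fin, M', 𝒜.P, 𝒜.Q, 𝒜.ε, ℓ', e', hok⟩, o, hM', ?_, rfl, rfl, m1, m2, m3, m4⟩
  show M'.deg o < 𝒜.M.deg o
  have o1 : ¬ 𝒜.M.SameV o (𝒜.M.φ (𝒜.M.φ (𝒜.M.ι d))) := by
    rw [e2]
    intro h
    exact l0 (𝒜.M.sameV_trans h (𝒜.M.sameV_step (s j)))
  have o2 : ¬ 𝒜.M.SameV o (𝒜.M.φ (𝒜.M.φ d)) := by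
    rw [← e3]
    exact l2
  rw [if_pos so, if_neg l1, if_neg o1, if_neg o2] at hdeg
  omega

end MSG.H50
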