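import Pool.Agent.Lib.MP_acafa7_al.MS.H50.InB

/-! Module InC: the case of a boundary face of length one, two flips. -/

namespace MSG.H50

open Classical

theorem inc (hFM : FlipMStatement) (hFD : FlipDegStatement) (hA : AngStatement) :
    InCStatement := by
  intro V X a C aut hC 𝒜 o k s hM hF hφo h3k hloop hsum
  have hO := off3 𝒜
  have hL := 𝒜.ok.lenok
  have hcu := hM.2.2
  -- the triangle of `s 0`
  have i0 : 𝒜.M.ι (s 0) = o := by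
    apply 𝒜.M.φ.injective
    rw [hF.zero, hφo]
  have s0o : s 0 = 𝒜.M.ι o := by
    rw [← i0, 𝒜.M.ιι]
  obtain ⟨e1, e2, hι1⟩ := spoke hF (j := 0) (by omega)
  simp only [Nat.zero_add] at e1 e2 hι1
  obtain ⟨m, rfl⟩ : ∃ m, k = m + 3 := ⟨k - 3, by omega⟩
  have hk1 : m + 3 - 1 = m + 2 := by omega
  rw [hk1] at hsum
  have eK : 𝒜.M.φ (𝒜.M.φ (s (m + 2))) = s 0 := by
    have h := hF.next (m + 2) (by omega)
    have h' : s (m + 2 + 1) = o := hF.last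
    rw [h'] at h
    rw [s0o, h, 𝒜.M.ιι]
  have f0 : 𝒜.M.φ (s 0) = s (m + 2) := by
    rw [← eK]
    exact (hO.2 _ (hF.tri (m + 2) (by omega))).1
  have fK : 𝒜.M.φ (s (m + 2)) = 𝒜.M.ι (s 1) := by
    rw [e1, f0]
  obtain ⟨e3, e4, hι2⟩ := spoke hF (j := 1) (by omega)
  simp only [Nat.reduceAdd] at e3 e4 hι2
  have q0 := th_facts hA hO hL (hF.tri 0 (by omega))
  have q1 := th_facts hA hO hL (hF.tri 1 (by omega))
  have qι2 := th_facts hA hO hL hι2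
  have qι1 := th_facts hA hO hL hι1
  have so : ∀ j, j ≤ m + 3 → 𝒜.M.SameV o (s j) := fun j hj => sameV_spoke hF hj
  have hs1 := hF.tri 1 (by omega)
  have hs0 := hF.tri 0 (by omega)
  have hsK := hF.tri (m + 2) (by omega)
  rcases Nat.eq_zero_or_pos m with hm | hm
  · -- three triangles at the vertex
    exfalso
    subst hm
    simp only [Nat.zero_add] at *
    have h := hF.curv
    rw [Finset.sum_range_succ, Finset.sum_range_succ, Finset.sum_range_succ, Finset.sum_range_zero,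
      zero_add] at h
    have h1 := q0.2.2
    have h2 := q1.2.2
    rw [f0, fK] at h1
    rw [← e3] at h2
    linarith
  obtain ⟨m, rfl⟩ : ∃ m', m = m' + 1 := ⟨m - 1, by omega⟩
  simp only [Nat.add_assoc, Nat.reduceAdd] at *
  -- names: `S1 = s 1`, `K1 = s (m + 3)`, `K2 = s (m + 2)`
  have ne : ∀ i j, i ≤ m + 4 → j ≤ m + 4 → i ≠ j → s i ≠ s j := fun i j hi hj hij h =>
    hij (hF.inj i j hi hj h)
  obtain ⟨e5, e6, hιK⟩ := spoke hF (j := m + 2) (by omega)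
  simp only [Nat.add_assoc, Nat.reduceAdd] at e5 e6 hιK
  have l1 := hloop 1 (by omega) (by omega)
  have l2 := hloop 2 (by omega) (by omega)
  have lK1 := hloop (m + 3) (by omega) (by omega)
  have lK2 := hloop (m + 2) (by omega) (by omega)
  have sφ1 : ¬ 𝒜.M.SameV o (𝒜.M.φ (s 1)) := fun h =>
    l1 (𝒜.M.sameV_trans h (𝒜.M.sameV_step (s 1)))
  have sφK2 : ¬ 𝒜.M.SameV o (𝒜.M.φ (s (m + 2))) := fun h =>
    lK2 (𝒜.M.sameV_trans h (𝒜.M.sameV_step (s (m + 2))))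
  -- the first flip
  have n1 : 𝒜.M.ι (s 1) ≠ 𝒜.M.φ (s 1) := ne_phi hA hO hL 𝒜.ok.npc hs1
  have n2 : 𝒜.M.ι (s 1) ≠ 𝒜.M.φ (𝒜.M.φ (s 1)) := by
    intro h
    rw [h, (hO.2 _ hs1).1] at e2
    exact ne 1 0 (by omega) (by omega) (by omega) e2
  have a1 : 𝒜.M.th 𝒜.ℓ (s 1) + 𝒜.M.th 𝒜.ℓ (𝒜.M.φ (𝒜.M.ι (s 1))) < Real.pi := by
    rw [e2]
    exact two_lt hA hM hF (Or.inr (by omega)) (by omega) (by omega) (by omega)
  have qιK := th_facts hA hO hL hιK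
  have a2 : 𝒜.M.th 𝒜.ℓ (𝒜.M.ι (s 1)) + 𝒜.M.th 𝒜.ℓ (𝒜.M.φ (s 1)) < Real.pi := by
    linarith [qιK.1]
  obtain ⟨M', ℓ', e', hok, hfl, hM', hdeg, m1, m2, m3, m4, t0, t1, t2, t3, t4⟩ :=
    flip_core hFM hFD aut hC 𝒜 o hM (s 1) hs1 hι1 n1 n2 a1 a2
  rw [e2, f0] at t4 t0 hdeg
  rw [e2] at t1
  rw [if_pos (so 1 (by omega)), if_neg l1, if_pos (so (m + 3) (by omega)), ← e3, if_neg l2] at hdeg
  have hdeg' : M'.deg o = 𝒜.M.deg o := by omega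
  -- six darts
  have r1 : 𝒜.M.ι (s (m + 3)) ≠ s 1 := fun h => lK1 (h ▸ so 1 (by omega))
  have r2 : 𝒜.M.ι (s (m + 3)) ≠ 𝒜.M.φ (s 1) := by
    intro h
    rw [e5] at h
    have h' := 𝒜.M.φ.injective h
    exact sφK2 (h' ▸ so 1 (by omega))
  have r3 : 𝒜.M.ι (s (m + 3)) ≠ 𝒜.M.φ (𝒜.M.φ (s 1)) := by
    rw [← e3]
    intro h
    exact ne (m + 3) 2 (by omega) (by omega) (by omega) (𝒜.M.ι.injective h)
  have r4 : 𝒜.M.ι (s (m + 3)) ≠ 𝒜.M.ι (s 1) := fun h =>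
    ne (m + 3) 1 (by omega) (by omega) (by omega) (𝒜.M.ι.injective h)
  have r5 : 𝒜.M.ι (s (m + 3)) ≠ s 0 := fun h => lK1 (h ▸ so 0 (by omega))
  have r6 : 𝒜.M.ι (s (m + 3)) ≠ s (m + 3) := 𝒜.M.ne _
  have u1 : s (m + 2) ≠ s 1 := ne _ _ (by omega) (by omega) (by omega)
  have u2 : s (m + 2) ≠ 𝒜.M.φ (s 1) := fun h => sφ1 (h ▸ so (m + 2) (by omega))
  have u3 : s (m + 2) ≠ 𝒜.M.φ (𝒜.M.φ (s 1)) := by
    rw [← e3]
    exact fun h => l2 (h ▸ so (m + 2) (by omega))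
  have u4 : s (m + 2) ≠ 𝒜.M.ι (s 1) := fun h => l1 (h ▸ so (m + 2) (by omega))
  have u5 : s (m + 2) ≠ s 0 := ne _ _ (by omega) (by omega) (by omega)
  have u6 : s (m + 2) ≠ s (m + 3) := ne _ _ (by omega) (by omega) (by omega)
  have w1 : 𝒜.M.φ (s (m + 2)) ≠ s 1 := fun h => sφK2 (h ▸ so 1 (by omega))
  have w4 : 𝒜.M.φ (s (m + 2)) ≠ 𝒜.M.ι (s 1) := by
    intro h
    rw [← fK] at h
    exact u6 (𝒜.M.φ.injective h)
  -- the new map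
  have g1 : M'.ι (s (m + 3)) = 𝒜.M.ι (s (m + 3)) := hfl.flip.ι _
  have g2 : M'.φ (𝒜.M.ι (s (m + 3))) = s (m + 2) := by
    rw [hfl.flip.rest _ r1 r2 r3 r4 (by rw [e2]; exact r5) (by rw [e2, f0]; exact r6), e6]
  have g3 : M'.φ (s (m + 2)) = 𝒜.M.φ (s (m + 2)) :=
    hfl.flip.rest _ u1 u2 u3 u4 (by rw [e2]; exact u5) (by rw [e2, f0]; exact u6)
  have g4 : M'.φ (s (m + 3)) = 𝒜.M.φ (s 1) := by
    have h := hfl.flip.f4
    rw [e2, f0] at h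
    exact h
  have g5 : M'.φ (𝒜.M.φ (s 1)) = 𝒜.M.ι (s 1) := hfl.flip.f5
  have v1 : M'.th ℓ' (𝒜.M.ι (s (m + 3))) = 𝒜.M.th 𝒜.ℓ (𝒜.M.ι (s (m + 3))) :=
    t0 _ r1 r2 r3 r4 r5 r6
  have v2 : M'.th ℓ' (s (m + 2)) = 𝒜.M.th 𝒜.ℓ (s (m + 2)) := t0 _ u1 u2 u3 u4 u5 u6
  have hO' : M'.toDMap.Off3 (annB 𝒜.P 𝒜.Q) :=
    ⟨hok.ann.off.1, fun d hd => (hok.ann.off.2 d hd).1⟩
  have v3 := (th_facts hA hO' hok.lenok hs1).1
  have b1 : M'.th ℓ' (s (m + 3)) + M'.th ℓ' (M'.φ (M'.ι (s (m + 3)))) < Real.pi := by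
    rw [g1, g2, v2]
    have := two_lt hA hM hF (Or.inr (by omega)) (i := m + 3) (j := m + 2) (by omega) (by omega)
      (by omega)
    linarith
  have b2 : M'.th ℓ' (M'.ι (s (m + 3))) + M'.th ℓ' (M'.φ (s (m + 3))) < Real.pi := by
    rw [g1, g4, v1, t2]
    linarith
  obtain ⟨M'', ℓ'', e'', hok'', hfl'', hM'', hdeg'', k1, k2, k3, k4, -⟩ :=
    flip_core hFM hFD aut hC ⟨𝒜.D, 𝒜.fin, M', 𝒜.P, 𝒜.Q, 𝒜.ε, ℓ', e', hok⟩ o hM' (s (m + 3)) hsK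
      (by
        show M'.ι (s (m + 3)) ∉ annB 𝒜.P 𝒜.Q
        rw [g1]
        exact hιK)
      (by
        show M'.ι (s (m + 3)) ≠ M'.φ (s (m + 3))
        rw [g1, g4]
        exact r2)
      (by
        show M'.ι (s (m + 3)) ≠ M'.φ (M'.φ (s (m + 3)))
        rw [g1, g4, g5]
        exact r4) b1 b2
  refine ⟨⟨𝒜.D, 𝒜.fin, M'', 𝒜.P, 𝒜.Q, 𝒜.ε, ℓ'', e'', hok''⟩, o, hM'', ?_, rfl, rfl,
    k1.trans m1, k2.trans m2, k3.trans m3, k4.trans m4⟩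
  show M''.deg o < 𝒜.M.deg o
  change M''.deg o + (if M'.SameV o (s (m + 3)) then 1 else 0) +
    (if M'.SameV o (M'.ι (s (m + 3))) then 1 else 0) =
    M'.deg o + (if M'.SameV o (M'.φ (M'.φ (M'.ι (s (m + 3))))) then 1 else 0) +
      (if M'.SameV o (M'.φ (M'.φ (s (m + 3)))) then 1 else 0) at hdeg''
  rw [g1, g2, g3, g4, g5] at hdeg''
  have o1 : o ≠ s 1 := not_B_of hM hs1
  have o2 : o ≠ 𝒜.M.ι (s 1) := not_B_of hM hι1
  have z1 : M'.SameV o (s (m + 3)) :=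
    (hfl.flip.sv _ _ o1 o2 (ne _ _ (by omega) (by omega) (by omega))
      (fun h => l1 (h ▸ so (m + 3) (by omega)))).2 (so (m + 3) (by omega))
  have z2 : ¬ M'.SameV o (𝒜.M.φ (s (m + 2))) := fun h =>
    sφK2 ((hfl.flip.sv _ _ o1 o2 w1 w4).1 h)
  have z3 : ¬ M'.SameV o (𝒜.M.ι (s 1)) := by
    intro h
    have h1 := hfl.flip.sv1
    rw [← e3] at h1
    have h2 : M'.SameV o (𝒜.M.ι (s 2)) := M'.sameV_trans h h1
    refine l2 ((hfl.flip.sv _ _ o1 o2 ?_ ?_).1 h2)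
    · exact fun h => l2 (h ▸ so 1 (by omega))
    · exact fun h => ne 2 1 (by omega) (by omega) (by omega) (𝒜.M.ι.injective h)
  rw [if_pos z1, if_neg z2, if_neg z3] at hdeg''
  omega

end MSG.H50
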