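import Pool.Agent.Lib.MP_acafa7_al.MS.H50.FanAux

/-! Module LoopK: in the case of a boundary face of length one the degree is at least four. -/

namespace MSG.H50

open Classical

theorem loopk (hA : AngStatement) : LoopKStatement := by
  intro V X a C aut 𝒜 o k s hM hF hφo
  have hO := off3 𝒜
  have hL := 𝒜.ok.lenok
  have i0 : 𝒜.M.ι (s 0) = o := by
    apply 𝒜.M.φ.injective
    rw [hF.zero, hφo]
  have s0o : s 0 = 𝒜.M.ι o := by
    rw [← i0, 𝒜.M.ιι]
  rcases Nat.lt_or_ge k 3 with hk | hk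
  swap
  · exact hk
  exfalso
  rcases Nat.eq_zero_or_pos k with h0 | h0
  · subst h0
    have h1 := hF.last
    rw [s0o] at h1
    exact 𝒜.M.ne o h1
  obtain ⟨m, rfl⟩ : ∃ m, k = m + 1 := ⟨k - 1, by omega⟩
  have eK : 𝒜.M.φ (𝒜.M.φ (s m)) = s 0 := by
    have h := hF.next m (by omega)
    rw [hF.last] at h
    rw [s0o, h, 𝒜.M.ιι]
  have f0 : 𝒜.M.φ (s 0) = s m := by
    rw [← eK]
    exact (hO.2 _ (hF.tri m (by omega))).1
  rcases Nat.eq_zero_or_pos m with h1 | h1
  · subst h1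
    exact (hO.2 _ (hF.tri 0 (by omega))).2 f0
  · have h2 : m = 1 := by omega
    subst h2
    obtain ⟨e1, -, -⟩ := spoke hF (j := 0) (by omega)
    simp only [Nat.zero_add] at e1
    rw [f0] at e1
    exact ne_phi hA hO hL 𝒜.ok.npc (hF.tri 1 (by omega)) e1

end MSG.H50
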