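import Pool.Agent.Lib.MP_acafa7_al.MS.Iface2

/-! Common lemmas for the modules InA, InB, InC (flips at a marked vertex). -/

namespace MSG.H50

open Classical

section basic

variable {D : Type}

theorem off3_compl {M : DMap D} {B : Set D} (hO : M.Off3 B) {d : D} (hd : d ∉ B) :
    M.φ d ∉ B := by
  intro h
  have h1 := hO.1 _ h
  have h2 := hO.1 _ h1
  rw [(hO.2 d hd).1] at h2
  exact hd h2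

theorem th_facts (hA : AngStatement) {M : DMap D} {ℓ : D → ℝ} {B : Set D} (hO : M.Off3 B)
    (hL : M.LenOK ℓ B) {d : D} (hd : d ∉ B) :
    0 < M.th ℓ d ∧ M.th ℓ d < Real.pi ∧
      M.th ℓ d + M.th ℓ (M.φ d) + M.th ℓ (M.φ (M.φ d)) = Real.pi := by
  have h1 := off3_compl hO hd
  have h2 := off3_compl hO h1
  have e := (hO.2 d hd).1
  have l0 := hL.2.2 d hd
  have l1 := hL.2.2 _ h1
  have l2 := hL.2.2 _ h2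
  rw [e] at l1 l2
  obtain ⟨p1, p2, p3, -⟩ := hA (ℓ d) (ℓ (M.φ (M.φ d))) (ℓ (M.φ d)) (hL.1 _) (hL.1 _) (hL.1 _)
    (by linarith) (by linarith) (by linarith)
  refine ⟨p1, p2, ?_⟩
  unfold DMap.th
  rw [e]
  linarith

/-- no vertex of degree one -/
theorem ne_phi [Fintype D] (hA : AngStatement) {M : DMap D} {ℓ : D → ℝ} {B : Set D}
    (hO : M.Off3 B) (hL : M.LenOK ℓ B)
    (npc : ∀ d, (∀ b, M.SameV d b → b ∉ B) → M.curv ℓ B d ≤ 0) {s : D} (hs : s ∉ B) :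
    M.ι s ≠ M.φ s := by
  intro h
  have key : ∀ b, M.SameV (M.φ s) b → b = M.φ s := by
    intro b hb
    refine (hb (fun x => x = M.φ s) ?_).1 rfl
    intro d
    constructor
    · intro h1
      have : d = s := M.φ.injective h1
      subst this
      exact h
    · intro h1
      have : d = s := M.ι.injective (h1.trans h.symm)
      subst this
      rfl
  have hB := off3_compl hO hs
  have h1 := npc (M.φ s) (fun b hb => by rw [key b hb]; exact hB)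
  have h2 : M.curv ℓ B (M.φ s) = 2 * Real.pi - M.th ℓ (M.φ s) := by
    unfold DMap.curv
    congr 1
    rw [Finset.sum_eq_single (M.φ s)]
    · rw [if_pos (M.sameV_refl _)]
      unfold DMap.wt
      rw [if_neg hB]
    · intro b _ hb
      rw [if_neg]
      intro h3
      exact hb (key b h3)
    · intro h3
      exact absurd (Finset.mem_univ _) h3
  have h3 := (th_facts hA hO hL hB).2.1
  have := Real.pi_pos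
  linarith

end basic

variable {V : Type} {X : Cx V} {a : Equiv.Perm V} {C : ℝ}

theorem off3 (𝒜 : MA X a C) : 𝒜.M.toDMap.Off3 (annB 𝒜.P 𝒜.Q) :=
  ⟨𝒜.ok.ann.off.1, fun d hd => (𝒜.ok.ann.off.2 d hd).1⟩

theorem mem_B_left {𝒜 : MA X a C} {o : 𝒜.D} (h : o ∈ 𝒜.P) : o ∈ annB 𝒜.P 𝒜.Q := Or.inl h

/-- the sum of the corners at a marked vertex -/
theorem sum_le (hA : AngStatement) {𝒜 : MA X a C} {o : 𝒜.D} {k : ℕ} {s : ℕ → 𝒜.D}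
    (hM : 𝒜.Marked o) (hF : 𝒜.Fan o k s) (T : Finset 𝒜.D)
    (hT : ∀ d ∈ T, 𝒜.M.SameV o d ∧ d ∉ annB 𝒜.P 𝒜.Q) :
    ∑ d ∈ T, 𝒜.M.th 𝒜.ℓ d ≤ Real.pi - 𝒜.M.curv 𝒜.ℓ (annB 𝒜.P 𝒜.Q) o := by
  have h1 : ∑ j ∈ Finset.range k, 𝒜.M.th 𝒜.ℓ (s j) =
      ∑ d ∈ (Finset.range k).image s, 𝒜.M.th 𝒜.ℓ d := by
    rw [Finset.sum_image]
    intro i hi j hj hij
    simp only [Finset.coe_range, Set.mem_Iio] at hi hj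
    exact hF.inj i j hi.le hj.le hij
  rw [hF.curv, h1]
  have h2 : T ⊆ (Finset.range k).image s := by
    intro d hd
    obtain ⟨h3, h4⟩ := hT d hd
    obtain ⟨j, hj, rfl⟩ := (hF.cls d).1 h3
    rw [Finset.mem_image]
    refine ⟨j, ?_, rfl⟩
    rw [Finset.mem_range]
    rcases Nat.lt_or_ge j k with h | h
    · exact h
    · exfalso
      have : j = k := le_antisymm hj h
      rw [this, hF.last] at h4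
      exact h4 (mem_B_left hM.1)
  have h5 := Finset.sum_le_sum_of_subset_of_nonneg (f := fun d => 𝒜.M.th 𝒜.ℓ d) h2 (by
    intro d hd _
    rw [Finset.mem_image] at hd
    obtain ⟨j, hj, rfl⟩ := hd
    rw [Finset.mem_range] at hj
    exact (th_facts hA (off3 𝒜) 𝒜.ok.lenok (hF.tri j hj)).1.le)
  linarith

/-- facts on the spokes -/
theorem spoke {𝒜 : MA X a C} {o : 𝒜.D} {k : ℕ} {s : ℕ → 𝒜.D} (hF : 𝒜.Fan o k s) {j : ℕ}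
    (hj : j < k) : 𝒜.M.ι (s (j + 1)) = 𝒜.M.φ (𝒜.M.φ (s j)) ∧ 𝒜.M.φ (𝒜.M.ι (s (j + 1))) = s j ∧
      𝒜.M.ι (s (j + 1)) ∉ annB 𝒜.P 𝒜.Q := by
  have h1 : 𝒜.M.ι (s (j + 1)) = 𝒜.M.φ (𝒜.M.φ (s j)) := by
    rw [hF.next j hj, 𝒜.M.ιι]
  refine ⟨h1, ?_, ?_⟩
  · rw [h1]
    exact ((off3 𝒜).2 _ (hF.tri j hj)).1
  · rw [h1]
    exact off3_compl (off3 𝒜) (off3_compl (off3 𝒜) (hF.tri j hj))

theorem sameV_spoke {𝒜 : MA X a C} {o : 𝒜.D} {k : ℕ} {s : ℕ → 𝒜.D} (hF : 𝒜.Fan o k s) {j : ℕ}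
    (hj : j ≤ k) : 𝒜.M.SameV o (s j) := (hF.cls _).2 ⟨j, hj, rfl⟩

theorem not_B_of {𝒜 : MA X a C} {o : 𝒜.D} (hM : 𝒜.Marked o) {d : 𝒜.D} (h : d ∉ annB 𝒜.P 𝒜.Q) :
    o ≠ d := by
  rintro rfl
  exact h (mem_B_left hM.1)

/-- one flip -/
theorem flip_core (hFM : FlipMStatement) (hFD : FlipDegStatement) (aut : FreeAut X a) (hC : 0 < C)
    (𝒜 : MA X a C) (o : 𝒜.D) (hM : 𝒜.Marked o) (s : 𝒜.D) (hs : s ∉ annB 𝒜.P 𝒜.Q)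
    (hι : 𝒜.M.ι s ∉ annB 𝒜.P 𝒜.Q) (h1 : 𝒜.M.ι s ≠ 𝒜.M.φ s) (h2 : 𝒜.M.ι s ≠ 𝒜.M.φ (𝒜.M.φ s))
    (a1 : 𝒜.M.th 𝒜.ℓ s + 𝒜.M.th 𝒜.ℓ (𝒜.M.φ (𝒜.M.ι s)) < Real.pi)
    (a2 : 𝒜.M.th 𝒜.ℓ (𝒜.M.ι s) + 𝒜.M.th 𝒜.ℓ (𝒜.M.φ s) < Real.pi) :
    ∃ (M' : LMap V 𝒜.D a) (ℓ' : 𝒜.D → ℝ) (e' : 𝒜.D → ℝ → V → ℝ)
      (hok : IsMA X C M' 𝒜.P 𝒜.Q 𝒜.ε ℓ' e'), IsFlipL 𝒜.M M' s ∧
      MA.Marked (⟨𝒜.D, 𝒜.fin, M', 𝒜.P, 𝒜.Q, 𝒜.ε, ℓ', e', hok⟩ : MA X a C) o ∧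
      M'.deg o + (if 𝒜.M.SameV o s then 1 else 0) + (if 𝒜.M.SameV o (𝒜.M.ι s) then 1 else 0) =
        𝒜.M.deg o + (if 𝒜.M.SameV o (𝒜.M.φ (𝒜.M.φ (𝒜.M.ι s))) then 1 else 0) +
          (if 𝒜.M.SameV o (𝒜.M.φ (𝒜.M.φ s)) then 1 else 0) ∧
      𝒜.P.map M'.f = 𝒜.P.map 𝒜.M.f ∧ 𝒜.Q.map M'.f = 𝒜.Q.map 𝒜.M.f ∧
      𝒜.P.map ℓ' = 𝒜.P.map 𝒜.ℓ ∧ 𝒜.Q.map ℓ' = 𝒜.Q.map 𝒜.ℓ ∧
      (∀ d, d ≠ s → d ≠ 𝒜.M.φ s → d ≠ 𝒜.M.φ (𝒜.M.φ s) → d ≠ 𝒜.M.ι s → d ≠ 𝒜.M.φ (𝒜.M.ι s) →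
        d ≠ 𝒜.M.φ (𝒜.M.φ (𝒜.M.ι s)) → M'.th ℓ' d = 𝒜.M.th 𝒜.ℓ d) ∧
      M'.th ℓ' (𝒜.M.φ (𝒜.M.ι s)) = 𝒜.M.th 𝒜.ℓ s + 𝒜.M.th 𝒜.ℓ (𝒜.M.φ (𝒜.M.ι s)) ∧
      M'.th ℓ' (𝒜.M.φ s) = 𝒜.M.th 𝒜.ℓ (𝒜.M.φ s) + 𝒜.M.th 𝒜.ℓ (𝒜.M.ι s) ∧
      M'.th ℓ' (𝒜.M.φ (𝒜.M.φ s)) + M'.th ℓ' (𝒜.M.ι s) = 𝒜.M.th 𝒜.ℓ (𝒜.M.φ (𝒜.M.φ s)) ∧
      M'.th ℓ' (𝒜.M.φ (𝒜.M.φ (𝒜.M.ι s))) + M'.th ℓ' s =
        𝒜.M.th 𝒜.ℓ (𝒜.M.φ (𝒜.M.φ (𝒜.M.ι s))) := by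
  obtain ⟨M', ℓ', e', hfl, hok, hcur, hth, t1, t2, t3, t4⟩ :=
    hFM V X a C aut hC 𝒜 s hs hι h1 h2 a1 a2
  have hos : o ≠ s := not_B_of hM hs
  have hoι : o ≠ 𝒜.M.ι s := not_B_of hM hι
  have hns : ∀ b ∈ annB 𝒜.P 𝒜.Q, b ≠ s := by
    rintro b hb rfl
    exact hs hb
  have hnι : ∀ b ∈ annB 𝒜.P 𝒜.Q, b ≠ 𝒜.M.ι s := by
    rintro b hb rfl
    exact hι hb
  refine ⟨M', ℓ', e', hok, hfl, ⟨hM.1, ?_, ?_⟩, ?_, ?_, ?_, ?_, ?_, hth, t1, t2, t3, t4⟩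
  · intro b hb hob
    exact hM.2.1 b hb ((hfl.flip.sv o b hos hoι (hns b hb) (hnι b hb)).1 hob)
  · have := (hcur o hos hoι).2
    show 0 ≤ M'.curv ℓ' (annB 𝒜.P 𝒜.Q) o
    rw [this]
    exact hM.2.2
  · exact hFD 𝒜.D 𝒜.M.toDMap M'.toDMap s ((off3 𝒜).2 _ hs) ((off3 𝒜).2 _ hι) h1 h2 hfl.flip o
      hos hoι
  · exact List.map_congr_left fun d hd => (hfl.fγ d (hns d (Or.inl hd)) (hnι d (Or.inl hd))).1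
  · exact List.map_congr_left fun d hd => (hfl.fγ d (hns d (Or.inr hd)) (hnι d (Or.inr hd))).1
  · exact List.map_congr_left fun d hd => (hcur d (hns d (Or.inl hd)) (hnι d (Or.inl hd))).1
  · exact List.map_congr_left fun d hd => (hcur d (hns d (Or.inr hd)) (hnι d (Or.inr hd))).1

end MSG.H50
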